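import Mathlib
import Pool.Agent.R972.WT.Main

/-!
# MP_200d02_pr, Q1: the weak transport inequality `T^-` implies the full one in every dimension

Everything is stated in the dual forms quoted in the problem file (Gozlan, Roberto, Samson,
Tetali).  Measures have a finite first moment.
-/

namespace Pool.Agent.Results.MP_200d02_pr.MinusImpliesFull

open MeasureTheory Set

/-- The infimum convolution `Q f (x) = inf_y { f y + (a |x - y|)^2 }`, i.e. the operator
`Q_1^θ` of the problem for the cost `t ↦ a^2 t^2`. -/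
noncomputable def infConv {n : ℕ} (a : ℝ) (f : EuclideanSpace ℝ (Fin n) → ℝ)
    (x : EuclideanSpace ℝ (Fin n)) : ℝ :=
  ⨅ y, (f y + (a * ‖x - y‖) ^ 2)

/-- `T^-` with cost `a^2 t^2` in dual form: `∫ e^{Q f} dμ ≤ e^{∫ f dμ}` for all convex `f` bounded
below (there is nothing to check when `∫ f dμ = ∞`). -/
def DualMinus {n : ℕ} (a : ℝ) (μ : Measure (EuclideanSpace ℝ (Fin n))) : Prop :=
  ∀ f : EuclideanSpace ℝ (Fin n) → ℝ, ConvexOn ℝ univ f → BddBelow (range f) → Integrable f μ →
    Integrable (fun x => Real.exp (infConv a f x)) μ ∧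
      ∫ x, Real.exp (infConv a f x) ∂μ ≤ Real.exp (∫ x, f x ∂μ)

/-- `T^+` with cost `a^2 t^2` in dual form: `e^{∫ Q f dμ} ∫ e^{-f} dμ ≤ 1` for all convex `f`
bounded below (in particular `Q f` is integrable). -/
def DualPlus {n : ℕ} (a : ℝ) (μ : Measure (EuclideanSpace ℝ (Fin n))) : Prop :=
  ∀ f : EuclideanSpace ℝ (Fin n) → ℝ, ConvexOn ℝ univ f → BddBelow (range f) →
    Integrable (infConv a f) μ ∧
      Real.exp (∫ x, infConv a f x ∂μ) * ∫ x, Real.exp (-f x) ∂μ ≤ 1

theorem infConv_eq {n : ℕ} (a : ℝ) (f : EuclideanSpace ℝ (Fin n) → ℝ) :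
    infConv a f = Pool.Agent.R972.WT.Q a f := by
  funext x
  simp only [infConv, Pool.Agent.R972.WT.Q, mul_pow]

/-- In every dimension, `T^-` with some constant `a > 0` implies `T^-` and `T^+`, with some common
constant `a' > 0`. -/
theorem result (n : ℕ) (μ : Measure (EuclideanSpace ℝ (Fin n))) [IsProbabilityMeasure μ]
    (hμ : Integrable (fun x => ‖x‖) μ) (a : ℝ) (ha : 0 < a) (h : DualMinus a μ) :
    ∃ a' : ℝ, 0 < a' ∧ a' ≤ a ∧ DualMinus a' μ ∧ DualPlus a' μ := by
  have h' : Pool.Agent.R972.WT.TMinus a μ := by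
    intro f hf hb hi
    have := h f hf hb hi
    rwa [infConv_eq] at this
  obtain ⟨b, hb, hba, hP⟩ := Pool.Agent.R972.WT.tplus_of_tminus ha hμ h'
  refine ⟨b, hb, hba, ?_, ?_⟩
  · have h2 := Pool.Agent.R972.WT.TMinus_mono hb.le hba (μ := μ) (fun f hf hbd => by
      obtain ⟨m, hm⟩ := hbd
      have hc := Pool.Agent.R972.WT.Q_cont hb hf (m := m) (fun x => hm ⟨x, rfl⟩)
      exact (Real.continuous_exp.comp hc).aestronglyMeasurable) h'
    intro f hf hbd hi
    have := h2 f hf hbd hi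
    rwa [infConv_eq]
  · intro f hf hbd
    have := hP f hf hbd
    rwa [infConv_eq]

end Pool.Agent.Results.MP_200d02_pr.MinusImpliesFull
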